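import Mathlib
import Pool.Agent.Lib.MP_9f365b_co.Defs
import Pool.Agent.Lib.MP_9f365b_co.Stmts
import Pool.Agent.Lib.MP_9f365b_co.Assembly
import Pool.Agent.Lib.MP_9f365b_co.Frame
import Pool.Agent.Lib.MP_9f365b_co.Comb
import Pool.Agent.Lib.MP_9f365b_co.Cov
import Pool.Agent.Lib.MP_9f365b_co.Par
import Pool.Agent.Lib.MP_9f365b_co.Coord
import Pool.Agent.Lib.MP_9f365b_co.Circ3
import Pool.Agent.Lib.MP_9f365b_co.Deg
import Pool.Agent.Lib.MP_9f365b_co.Pend
import Pool.Agent.Lib.MP_9f365b_co.Compl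
import Pool.Agent.Lib.MP_9f365b_co.HubC
import Pool.Agent.Lib.MP_9f365b_co.ConfB
import Pool.Agent.Lib.MP_9f365b_co.Edge
import Pool.Agent.Lib.MP_9f365b_co.K4
import Pool.Agent.Lib.MP_9f365b_co.Shell
import Pool.Agent.Lib.MP_9f365b_co.YT
import Pool.Agent.Lib.MP_9f365b_co.Sigma
import Pool.Agent.Lib.MP_9f365b_co.S0alg
import Pool.Agent.Lib.MP_9f365b_co.SceneB
import Pool.Agent.Lib.MP_9f365b_co.Copy
import Pool.Agent.Lib.MP_9f365b_co.OnTwo
import Pool.Agent.Lib.MP_9f365b_co.NoScene
import Pool.Agent.Lib.MP_9f365b_co.Up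
import Pool.Agent.Lib.MP_9f365b_co.Box
import Pool.Agent.Lib.MP_9f365b_co.PageM
import Pool.Agent.Lib.MP_9f365b_co.PageD
import Pool.Agent.Lib.MP_9f365b_co.UB
import Pool.Agent.Lib.MP_9f365b_co.FiniteCover

/-!
# The dimension collapse fails for spherical cover numbers

There is a finite graph `G` with `σ_d^1(G) < σ_3^1(G) < ∞` for every `d > 3`.
-/

namespace Pool.Agent.Results.MP_9f365b_co.NoCollapse

open Pool.Agent.Lib.MP_9f365b_co

/-- Negative answer to Q1: some finite graph needs strictly more circles in `ℝ^3` than in `ℝ^d`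
for every `d > 3`. -/
theorem result : ∃ (V : Type) (_ : Finite V) (G : SimpleGraph V), sphericalCover 3 1 G < ⊤ ∧
    ∀ d : ℕ, 3 < d → sphericalCover d 1 G < sphericalCover 3 1 G := by
  have hPar : StParFrame := stParFrame stSymm stRange stThree
  have hCov : StCov := stCov stRange stThree
  have hCoord : StCoord := stCoord stFrame hPar
  have hDeg : StDeg := stDeg stFrame hPar stSymm hCov
  have hPend : StPend := stPend stFrame hPar stSymm hCov stThree
  have hCompl : StCompl := stCompl hPend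
  have hEdge : StEdge := stEdge hCoord
  have hHubEdge : StHubEdge := stHubEdge hCoord
  have hRigid : StRigid := stRigid (stShell stAnti stK4) (stY stAnti) stSigma
  have hScene : StScene := stScene hDeg (stHub stThree) (stHub2 stThree) hCov stThree
  have hNo : StNoScene := stNoScene (stConf stComb) (stCopy hEdge stAnti) hRigid stCentre
    (stOn hEdge stComb) (stOnTwo hHubEdge (stS0alg stAnti))
  have hLB : StLB := stLB hScene hNo
  have hPageD : StPageD := stPageD stCoPt (stUpCirc stCirc3 stComb) (stUpArc hCoord stCoPt)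
    (stUpHub hCoord stCoPt) stVert stBox stSymm
  have hUB : StUB := stUB stPage hPageD (stTriple stComb stCirc3) stMap stDouble stSymm
  obtain ⟨V, hV, G, hG⟩ := stMain hUB hCompl hLB (stMono stMap)
  exact ⟨V, hV, G, cover_lt_top stSymm stRange V hV G, hG⟩

end Pool.Agent.Results.MP_9f365b_co.NoCollapse
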